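import Pool.Agent.H15.DefD

/-!
# MP_c5c71e_co: graphs of chromatic number `ℵ₁` with `h_G(n)/n` growing slower than any power
-/

set_option autoImplicit false

namespace Pool.Agent.Results.MP_c5c71e_co.NearLinear

open Pool.Agent.H15.Def

/-- For every real `ε > 0` there is (in ZFC) a graph `G` with chromatic number exactly `ℵ₁` and a
constant `C > 0` such that `h_G(n)/n ≤ C n^ε` for every `n ≥ 1`, and `β(G[S]) ≤ C |S|^{1+ε}` for
every finite set `S` of vertices. -/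
theorem result (ε : ℝ) (hε : 0 < ε) : ∃ (V : Type) (G : SimpleGraph V),
    chi G = Cardinal.aleph 1 ∧
    ∃ C : ℝ, 0 < C ∧
      (∀ n : ℕ, 1 ≤ n → (hG G n : ℝ) / n ≤ C * (n : ℝ) ^ ε) ∧
      (∀ S : Finset V, (beta (G.induce (S : Set V)) : ℝ) ≤ C * (S.card : ℝ) ^ (1 + ε)) := by
  obtain ⟨V, G, h1, C, hC, h2, h3⟩ := final ε hε
  refine ⟨V, G, h1, C, hC, fun n hn => ?_, h2⟩
  have hn' : (0 : ℝ) < n := by exact_mod_cast hn
  rw [div_le_iff₀ hn', mul_assoc, ← Real.rpow_add_one hn'.ne']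
  have := h3 n
  rwa [add_comm 1 ε] at this

end Pool.Agent.Results.MP_c5c71e_co.NearLinear
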